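import Pool.Agent.Helper60.L1Dual.Statement
import Pool.Agent.Helper60.L1F.All
import Pool.Agent.Helper60.L1F.EX

open MeasureTheory Cardinal L1Dual

universe u v w

/-- Classification of the measures `μ` for which `L¹(μ)` is isomorphic to a dual Banach space.
For an infinite cardinal `κ`, `Cond μ κ` says: if there is a set of finite positive measure on every
part of which `μ` has Maharam type at least `κ`, then there are at least `2 ^ κ` such sets which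
pairwise intersect in null sets. -/
theorem Pool.Agent.Results.MP_3844f5_an.Classification.result {𝕜 : Type v} [RCLike 𝕜] :
    (∀ {Ω : Type u} [MeasurableSpace Ω] (μ : Measure Ω),
      ((∀ κ : Cardinal.{u}, ℵ₀ ≤ κ → Cond μ κ) →
        IsoToDual.{max u v, v, max u v} 𝕜 (Lp 𝕜 1 μ)) ∧
      (IsoToDual.{max u v, v, w} 𝕜 (Lp 𝕜 1 μ) →
        ∀ κ : Cardinal.{u}, ℵ₀ ≤ κ → κ ≠ ℵ₁ → Cond μ κ) ∧
      ((𝔠 : Cardinal.{0}) = ℵ₁ → (IsoToDual.{max u v, v, max u v} 𝕜 (Lp 𝕜 1 μ) ↔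
        ∀ κ : Cardinal.{u}, ℵ₀ ≤ κ → κ ≠ ℵ₁ → Cond μ κ)) ∧
      (MartinAxiomAlephOne → (IsoToDual.{max u v, v, max u v} 𝕜 (Lp 𝕜 1 μ) ↔
        ∀ κ : Cardinal.{u}, ℵ₀ ≤ κ → Cond μ κ))) ∧
    ∃ (Ω : Type) (_ : MeasurableSpace Ω) (μ : Measure Ω),
      (∀ κ : Cardinal.{0}, ℵ₀ ≤ κ → κ ≠ ℵ₁ → Cond μ κ) ∧ ¬ Cond μ ℵ₁ ∧
      ((𝔠 : Cardinal.{0}) = ℵ₁ → IsoToDual.{v, v, v} 𝕜 (Lp 𝕜 1 μ)) ∧
      (MartinAxiomAlephOne → ¬ IsoToDual.{v, v, w} 𝕜 (Lp 𝕜 1 μ)) := by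
  refine ⟨fun {Ω} _ μ => ?_, ?_⟩
  · have h1 := DualL1.full_classification.{u, v, w} μ (𝕜 := 𝕜)
    have h2 := DualL1.full_classification.{u, v, max u v} μ (𝕜 := 𝕜)
    exact ⟨h1.1, h1.2.1, fun hCH => ⟨h2.2.1, h2.2.2.1 hCH⟩, fun hMA => ⟨h2.2.2.2 hMA, h2.1⟩⟩
  · obtain ⟨Ω, i, μ, h1, h2⟩ := DualL1.st_EX
    refine ⟨Ω, i, μ, h1, h2, fun hCH => ?_, fun hMA h => h2 ?_⟩
    · exact (DualL1.full_classification.{0, v, v} μ (𝕜 := 𝕜)).2.2.1 hCH h1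
    · exact (DualL1.full_classification.{0, v, w} μ (𝕜 := 𝕜)).2.2.2 hMA h ℵ₁ aleph0_lt_aleph_one.le
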